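import Pool.Agent.H.MP_0dad12_an.E

set_option autoImplicit false

namespace Pool.Agent.H.MP_9b2fd3_an

open Pool.Agent.H.MP_0dad12_an Filter Topology

section
variable {A : Type} [NormedRing A] [NormedAlgebra ℂ A]

theorem step {u r x : A} (h1 : u * u = 1) (h2 : ‖u‖ ≤ 1) (h3 : Commute u r) (h4 : ‖r‖ ≤ 1 / 2)
    (h5 : Commute x (u + r)) : Commute x u := by
  have h6 : Commute u (u + r) := (Commute.refl u).add_right h3
  have h7 : Commute (x - u * x * u) (u + r) := h5.sub_left ((h6.mul_left h5).mul_left h6)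
  have h8 : (x - u * x * u) * u = -(u * (x - u * x * u)) := by
    rw [sub_mul, mul_sub, mul_assoc _ u u, h1, ← mul_assoc, ← mul_assoc, h1]
    simp
  have h9 : u * (x - u * x * u) = u * x - x * u := by
    rw [mul_sub, ← mul_assoc, ← mul_assoc, h1, one_mul]
  set y := x - u * x * u
  have e1 : (2 : ℂ) • y = u * (y * r - r * y) := by
    have := h7.eq
    rw [mul_add, add_mul, h8] at this
    have e : y * r - r * y = u * y + u * y := by
      rw [sub_eq_iff_eq_add, add_assoc, ← this]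
      abel
    rw [e, mul_add, ← mul_assoc, h1, one_mul, two_smul]
  have e2 := congrArg norm e1
  rw [norm_smul, Complex.norm_two] at e2
  have a1 := norm_mul_le u (y * r - r * y)
  have a2 := norm_sub_le (y * r) (r * y)
  have a3 := norm_mul_le y r
  have a4 := norm_mul_le r y
  have a5 := norm_nonneg y
  have a6 := norm_nonneg (y * r - r * y)
  have : ‖y‖ ≤ 0 := by nlinarith
  rw [norm_le_zero_iff.1 this, mul_zero] at h9
  exact (sub_eq_zero.1 h9.symm).symm

/-- tail sums -/
noncomputable def tl (u : ℕ → A) (n : ℕ) : A := ∑' k, (3⁻¹ : ℂ) ^ k • u (k + n)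

variable [CompleteSpace A] {u : ℕ → A}

omit [CompleteSpace A] in
theorem tl_bd (h2 : ∀ k, ‖u k‖ ≤ 1) (n k : ℕ) : ‖(3⁻¹ : ℂ) ^ k • u (k + n)‖ ≤ (3⁻¹ : ℝ) ^ k := by
  rw [norm_smul, norm_pow, norm_inv, Complex.norm_ofNat]
  exact mul_le_of_le_one_right (by positivity) (h2 _)

theorem tl_sum (h2 : ∀ k, ‖u k‖ ≤ 1) (n : ℕ) : Summable fun k => (3⁻¹ : ℂ) ^ k • u (k + n) :=
  Summable.of_norm_bounded (summable_geometric_of_lt_one (by norm_num) (by norm_num)) (tl_bd h2 n)

omit [CompleteSpace A] in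
theorem tl_norm (h2 : ∀ k, ‖u k‖ ≤ 1) (n : ℕ) : ‖tl u n‖ ≤ 3 / 2 := by
  have := tsum_of_norm_bounded (hasSum_geometric_of_lt_one (r := 3⁻¹) (by norm_num) (by norm_num))
    (tl_bd h2 n)
  exact this.trans (by norm_num)

theorem tl_succ (h2 : ∀ k, ‖u k‖ ≤ 1) (n : ℕ) : tl u n = u n + (3⁻¹ : ℂ) • tl u (n + 1) := by
  rw [tl, (tl_sum h2 n).tsum_eq_zero_add, tl, ← (tl_sum h2 (n + 1)).tsum_const_smul]
  simp only [pow_zero, one_smul, zero_add, smul_smul, pow_succ', add_assoc, add_comm 1 n]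

theorem comm_tl (h2 : ∀ k, ‖u k‖ ≤ 1) {n : ℕ} {x : A} (h : ∀ k, Commute x (u (k + n))) :
    Commute x (tl u n) := by
  rw [Commute, SemiconjBy, tl, ← (tl_sum h2 n).tsum_mul_left, ← (tl_sum h2 n).tsum_mul_right]
  exact tsum_congr fun k => ((h k).smul_right _).eq

theorem of_comm_tl (h1 : ∀ k, u k * u k = 1) (h2 : ∀ k, ‖u k‖ ≤ 1)
    (h3 : ∀ i j, Commute (u i) (u j)) {n : ℕ} {x : A} (h : Commute x (tl u n)) (k : ℕ) :
    Commute x (u (k + n)) := by
  have key : ∀ m, Commute x (tl u m) → Commute x (u m) := fun m hm =>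
    step (h1 m) (h2 m) ((comm_tl h2 fun _ => h3 _ _).smul_right _) (by
      rw [norm_smul, norm_inv, Complex.norm_ofNat]
      linarith [tl_norm h2 (m + 1)]) (tl_succ h2 m ▸ hm)
  refine key _ ?_
  induction k with
  | zero => simpa using h
  | succ k ih =>
    have h4 := (ih.sub_right (key _ ih)).smul_right (3 : ℂ)
    rw [tl_succ h2, add_sub_cancel_left, smul_smul] at h4
    simpa [add_right_comm] using h4

end

/-- the lamplighter group -/
@[ext] structure LL where
  f : ℤ →₀ ZMod 2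
  n : ℤ

noncomputable instance : Mul LL :=
  ⟨fun x y => ⟨x.f + y.f.equivMapDomain (Equiv.addRight x.n), x.n + y.n⟩⟩
noncomputable instance : One LL := ⟨⟨0, 0⟩⟩
noncomputable instance : Inv LL :=
  ⟨fun x => ⟨-x.f.equivMapDomain (Equiv.addRight (-x.n)), -x.n⟩⟩

@[simp] theorem mul_f (x y : LL) (i : ℤ) : (x * y).f i = x.f i + y.f (i - x.n) := by
  change (x.f + y.f.equivMapDomain (Equiv.addRight x.n)) i = _
  simp [sub_eq_add_neg]
@[simp] theorem mul_n (x y : LL) : (x * y).n = x.n + y.n := rfl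
@[simp] theorem one_f : (1 : LL).f = 0 := rfl
@[simp] theorem one_n : (1 : LL).n = 0 := rfl
@[simp] theorem inv_f (x : LL) (i : ℤ) : (x⁻¹).f i = -x.f (i + x.n) := by
  change (-x.f.equivMapDomain (Equiv.addRight (-x.n))) i = _
  simp
@[simp] theorem inv_n (x : LL) : (x⁻¹).n = -x.n := rfl

noncomputable instance : Group LL := Group.ofLeftAxioms
  (fun x y z => by ext <;> simp [add_assoc, sub_sub])
  (fun x => by ext <;> simp) (fun x => by ext <;> simp [CharTwo.add_self_eq_zero])

instance : Countable LL :=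
  Function.Injective.countable (f := fun x : LL => (x.f, x.n)) fun _ _ h =>
    LL.ext (congrArg Prod.fst h) (congrArg Prod.snd h)

/-- lamps -/
noncomputable def lamp (k : ℕ) : LL := ⟨Finsupp.single k 1, 0⟩

theorem inf_of {S : Set LL} {T : Set ℤ} (hT : T.Infinite) (h : ∀ i ∈ T, ∃ x ∈ S, x.f i ≠ 0) :
    S.Infinite := fun hS => hT ((hS.biUnion fun x _ => x.f.support.finite_toSet).subset fun i hi => by
  obtain ⟨x, h1, h2⟩ := h i hi
  exact Set.mem_biUnion h1 (by simpa using h2))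

theorem lamp_inf {g : LL} (h : g.n ≠ 0) :
    (Set.range fun k => lamp (k + 1) * g * (lamp (k + 1))⁻¹).Infinite := by
  refine inf_of (T := Set.range (fun k : ℕ => ((k + 1 : ℕ) : ℤ)) \ g.f.support)
    ((Set.infinite_range_of_injective fun a b h => by simpa using h).sdiff
      g.f.support.finite_toSet) ?_
  rintro _ ⟨⟨k, rfl⟩, hk⟩
  refine ⟨_, ⟨k, rfl⟩, ?_⟩
  have h1 : g.f (k + 1) = 0 := by simpa using hk
  simp [lamp, h1, h]

theorem lamp_comm {g : LL} (h : g.n = 0) (k : ℕ) : Commute g (lamp k) := by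
  change _ = _
  ext <;> simp [lamp, h, add_comm]

theorem LL.icc {g : LL} (h : g ≠ 1) : (Set.range fun x => x * g * x⁻¹).Infinite := by
  by_cases h1 : g.n = 0
  · obtain ⟨i, hi⟩ : ∃ i, g.f i ≠ 0 := by
      by_contra h2
      push Not at h2
      exact h (LL.ext (Finsupp.ext h2) h1)
    refine inf_of Set.infinite_univ fun j _ => ⟨_, ⟨⟨0, j - i⟩, rfl⟩, ?_⟩
    simpa using hi
  · exact (lamp_inf h1).mono (Set.range_comp_subset_range (fun k => lamp (k + 1))
      fun x => x * g * x⁻¹)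

theorem lamp_sq (k : ℕ) : lamp k * lamp k = 1 := by
  ext <;> simp [lamp, CharTwo.add_self_eq_zero]

section
variable {G H : Type} [Group G] [NormedAddCommGroup H] [InnerProductSpace ℂ H] [CompleteSpace H]

/-- regular representations -/
structure Reg (b : HilbertBasis G ℂ H) (L R : G → H →L[ℂ] H) : Prop where
  hL : ∀ g h, L g (b h) = b (g * h)
  hR : ∀ g h, R g (b h) = b (h * g⁻¹)

theorem exists_reg (b : HilbertBasis G ℂ H) : ∃ L R, Reg b L R := by
  choose L hL using fun g => exists_op b (b.orthonormal.comp _ (mul_right_injective g))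
  choose R hR using fun g : G => exists_op b (b.orthonormal.comp _ (mul_left_injective g⁻¹))
  exact ⟨L, R, hL, hR⟩

variable {b : HilbertBasis G ℂ H} {L R : G → H →L[ℂ] H}

theorem Reg.starL (h : Reg b L R) (g : G) : star (L g) = L g⁻¹ := by
  classical
  refine star_ext b fun x y => ?_
  rw [h.hL, h.hL, orthonormal_iff_ite.1 b.orthonormal, orthonormal_iff_ite.1 b.orthonormal]
  exact if_congr eq_inv_mul_iff_mul_eq.symm rfl rfl

theorem Reg.starR (h : Reg b L R) (g : G) : star (R g) = R g⁻¹ := by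
  classical
  refine star_ext b fun x y => ?_
  rw [h.hR, h.hR, orthonormal_iff_ite.1 b.orthonormal, orthonormal_iff_ite.1 b.orthonormal, inv_inv]
  exact if_congr mul_inv_eq_iff_eq_mul rfl rfl

omit [CompleteSpace H] in
theorem Reg.mulL (h : Reg b L R) (g k : G) : L g * L k = L (g * k) :=
  op_ext b fun x => by rw [mul_apply_eq_comp, h.hL, h.hL, h.hL, mul_assoc]

omit [CompleteSpace H] in
theorem Reg.oneL (h : Reg b L R) : L 1 = 1 := op_ext b fun x => by simp [h.hL]

omit [CompleteSpace H] in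
theorem Reg.LR (h : Reg b L R) (g k : G) : Commute (R g) (L k) :=
  op_ext b fun x => by simp only [mul_apply_eq_comp, h.hL, h.hR, mul_assoc]

omit [CompleteSpace H] in
theorem Reg.sep (h : Reg b L R) {x y : H →L[ℂ] H} (hx : ∀ g, Commute (R g) x)
    (hy : ∀ g, Commute (R g) y) (e : x (b 1) = y (b 1)) : x = y := op_ext b fun g => by
  have : b g = R g⁻¹ (b 1) := by simp [h.hR]
  rw [this, ← mul_apply_eq_comp, ← mul_apply_eq_comp, ← (hx _).eq, ← (hy _).eq, mul_apply_eq_comp,
    mul_apply_eq_comp, e]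

theorem Reg.coef (h : Reg b L R) {x : H →L[ℂ] H} (hx : ∀ g, Commute (R g) x) (s g : G) :
    inner ℂ (b g) ((L s⁻¹ * x * L s) (b 1)) = inner ℂ (b (s * g * s⁻¹)) (x (b 1)) := by
  have e1 : L s (b 1) = R s⁻¹ (b 1) := by simp [h.hL, h.hR]
  have e2 : b (s * g * s⁻¹) = R s (L s (b g)) := by rw [h.hL, h.hR]
  rw [mul_apply_eq_comp, e1, mul_apply_eq_comp, ← mul_apply_eq_comp x, ← (hx _).eq,
    mul_apply_eq_comp, e2, ← h.starL, ← h.starR, ContinuousLinearMap.star_eq_adjoint,
    ContinuousLinearMap.star_eq_adjoint, ContinuousLinearMap.adjoint_inner_right,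
    ContinuousLinearMap.adjoint_inner_right, ← mul_apply_eq_comp (R s), (h.LR s s).eq,
    mul_apply_eq_comp]

theorem Reg.coef0 (h : Reg b L R) {x : H →L[ℂ] H} (hx : ∀ g, Commute (R g) x) {ι : Type}
    (s : ι → G) (hs : ∀ i, Commute x (L (s i))) {g : G}
    (hg : (Set.range fun i => s i * g * (s i)⁻¹).Infinite) : inner ℂ (b g) (x (b 1)) = 0 := by
  by_contra hne
  have h1 := (b.orthonormal.inner_products_summable (x (b 1))).tendsto_cofinite_zero
  have h2 := h1.eventually (gt_mem_nhds (show 0 < ‖inner ℂ (b g) (x (b 1))‖ ^ 2 by positivity))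
  refine hg ((eventually_cofinite.1 h2).subset ?_)
  rintro _ ⟨i, rfl⟩
  rw [Set.mem_ofPred_eq, ← h.coef hx, mul_assoc, (hs i).eq, ← mul_assoc, h.mulL, inv_mul_cancel,
    h.oneL, one_mul]
  exact lt_irrefl _

omit [CompleteSpace H] in
theorem Reg.scalar (h : Reg b L R) {x : H →L[ℂ] H} (hx : ∀ g, Commute (R g) x)
    (h0 : ∀ g, g ≠ 1 → inner ℂ (b g) (x (b 1)) = 0) : ∃ c : ℂ, x = c • 1 := by
  classical
  refine ⟨inner ℂ (b 1) (x (b 1)), h.sep hx (fun g => (Commute.one_right _).smul_right _)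
    (b.repr.injective (lp.ext (funext fun g => ?_)))⟩
  rw [b.repr_apply_apply, b.repr_apply_apply, _root_.smul_apply, one_apply_eq_self,
    inner_smul_right, orthonormal_iff_ite.1 b.orthonormal]
  split_ifs with h1
  · rw [h1, mul_one]
  · rw [h0 g h1, mul_zero]

theorem Reg.comm (h : Reg b L R) {x : H →L[ℂ] H} (hx : ∀ g, Commute (R g) x) {ι : Type}
    (s : ι → G) (hs : ∀ i, Commute x (L (s i))) {t : G}
    (hg : ∀ g, Commute g t ∨ ∀ k, Commute k t →
      (Set.range fun i => s i * (k * g * k⁻¹) * (s i)⁻¹).Infinite) : Commute x (L t) := by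
  have : L t⁻¹ * x * L t = x := by
    refine h.sep (fun g => ((h.LR _ _).mul_right (hx g)).mul_right (h.LR _ _)) hx
      (b.repr.injective (lp.ext (funext fun g => ?_)))
    rw [b.repr_apply_apply, b.repr_apply_apply, h.coef hx]
    rcases hg g with h1 | h1
    · rw [← h1.eq, mul_inv_cancel_right]
    · rw [h.coef0 hx s hs (h1 t rfl), h.coef0 hx s hs (by simpa using h1 1 (Commute.one_left _))]
  change _ = _
  conv_rhs => rw [← this, ← mul_assoc, ← mul_assoc, h.mulL, mul_inv_cancel, h.oneL, one_mul]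

theorem exists_diag (b : HilbertBasis G ℂ H) (P : G → Prop) : ∃ D : H →L[ℂ] H,
    (∀ {L R}, Reg b L R → ∀ s, Commute D (L s) ↔ ∀ g, (P (s * g) ↔ P g)) ∧
    ∀ x : H →L[ℂ] H, Commute D x → P 1 → ∀ g, ¬ P g → inner ℂ (b g) (x (b 1)) = 0 := by
  classical
  obtain ⟨D, hD⟩ := exists_op2 b id Function.injective_id P
  simp only [id] at hD
  have h1 : star D = D := star_ext b fun x y => by
    rw [hD, hD]
    by_cases e : x = y
    · subst e
      split_ifs <;> simp
    · have := b.orthonormal.inner_eq_zero (Ne.symm e)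
      split_ifs <;> simp [this]
  refine ⟨D, fun {L R} h s => ⟨fun hc g => ?_, fun hc => op_ext b fun g => ?_⟩,
    fun x hx p1 g hg => ?_⟩
  · have := DFunLike.congr_fun hc.eq (b g)
    rw [mul_apply_eq_comp, mul_apply_eq_comp, h.hL, hD, hD] at this
    have h2 := b.orthonormal.ne_zero (s * g)
    by_cases e1 : P (s * g) <;> by_cases e2 : P g
    · simp [e1, e2]
    · rw [if_pos e1, if_neg e2, map_zero] at this
      exact absurd this h2
    · rw [if_neg e1, if_pos e2, h.hL] at this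
      exact absurd this.symm h2
    · simp [e1, e2]
  · rw [mul_apply_eq_comp, mul_apply_eq_comp, h.hL, hD, hD]
    by_cases e2 : P g <;> simp [hc, e2, h.hL]
  · have : x (b 1) = D (x (b 1)) := by
      rw [← mul_apply_eq_comp, hx.eq, mul_apply_eq_comp, hD, if_pos p1]
    rw [this, ← h1, ContinuousLinearMap.star_eq_adjoint, ContinuousLinearMap.adjoint_inner_right,
      hD, if_neg hg, inner_zero_left]

end

end Pool.Agent.H.MP_9b2fd3_an
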